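import Mathlib

/-! A mixed cubic sum of Catalan triangle numbers. -/

set_option autoImplicit false

namespace Pool.Agent.N926.Shap

open Finset

/-- centred binomial coefficient `C(2n, n+k)` -/
def c (n k : ℕ) : ℚ := ((2 * n).choose (n + k) : ℕ)

/-- `C(2m+1, m+k)` -/
def x (m k : ℕ) : ℚ := ((2 * m + 1).choose (m + k) : ℕ)

/-- `C(n+m, n)` -/
def b (n m : ℕ) : ℚ := ((n + m).choose n : ℕ)

theorem c_pos (n : ℕ) : 0 < c n 0 := by
  unfold c
  exact_mod_cast Nat.choose_pos (by omega)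

theorem b_pos (n m : ℕ) : 0 < b n m := by
  unfold b
  exact_mod_cast Nat.choose_pos (by omega)

theorem succ_mul (N k : ℕ) :
    ((N.choose (k + 1) : ℕ) : ℚ) * (k + 1) = ((N.choose k : ℕ) : ℚ) * ((N : ℚ) - k) := by
  rcases le_or_gt k N with h | h
  · have := Nat.choose_succ_right_eq N k
    have h2 : ((N.choose (k + 1) * (k + 1) : ℕ) : ℚ) = ((N.choose k * (N - k) : ℕ) : ℚ) := by
      rw [this]
    push_cast [Nat.cast_sub h] at h2
    exact h2
  · rw [Nat.choose_eq_zero_of_lt h, Nat.choose_eq_zero_of_lt (by omega)]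
    simp

theorem c_succ (n k : ℕ) : c n (k + 1) = ((n : ℚ) - k) * c n k / ((n : ℚ) + k + 1) := by
  rw [eq_div_iff (by positivity)]
  have := succ_mul (2 * n) (n + k)
  unfold c
  rw [← add_assoc]
  push_cast at this ⊢
  linear_combination this

theorem x_succ (m k : ℕ) : x m (k + 1) = ((m : ℚ) + 1 - k) * x m k / ((m : ℚ) + 1 + k) := by
  rw [eq_div_iff (by positivity)]
  have := succ_mul (2 * m + 1) (m + k)
  unfold x
  rw [← add_assoc]
  push_cast at this ⊢
  linear_combination this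

theorem c_x (m k : ℕ) : c m k = ((m : ℚ) + 1 - k) * x m k / (2 * m + 1) := by
  rw [eq_div_iff (by positivity)]
  unfold c x
  rcases le_or_gt (m + k) (2 * m + 1) with h | h
  · have := Nat.choose_mul_succ_eq (2 * m) (m + k)
    have h2 : (((2 * m).choose (m + k) * (2 * m + 1) : ℕ) : ℚ) =
        (((2 * m + 1).choose (m + k) * (2 * m + 1 - (m + k)) : ℕ) : ℚ) := by rw [this]
    push_cast [Nat.cast_sub h] at h2
    linear_combination h2
  · rw [Nat.choose_eq_zero_of_lt h, Nat.choose_eq_zero_of_lt (by omega)]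
    simp

theorem c_x' (m k : ℕ) : c (m + 1) k = (2 * m + 2) * x m k / ((m : ℚ) + 1 + k) := by
  rw [eq_div_iff (by positivity)]
  unfold c x
  have := Nat.add_one_mul_choose_eq (2 * m + 1) (m + k)
  have h2 : (((2 * m + 1 + 1) * (2 * m + 1).choose (m + k) : ℕ) : ℚ) =
      (((2 * m + 1 + 1).choose (m + k + 1) * (m + k + 1) : ℕ) : ℚ) := by rw [this]
  rw [show 2 * (m + 1) = 2 * m + 1 + 1 by ring, show m + 1 + k = m + k + 1 by ring]
  push_cast at h2 ⊢
  linear_combination -h2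

theorem b_succ (n m : ℕ) : b n (m + 1) = ((n : ℚ) + m + 1) * b n m / ((m : ℚ) + 1) := by
  rw [eq_div_iff (by positivity)]
  unfold b
  have := Nat.choose_mul_succ_eq (n + m) n
  have h2 : (((n + m).choose n * (n + m + 1) : ℕ) : ℚ) =
      (((n + m + 1).choose n * (n + m + 1 - n) : ℕ) : ℚ) := by rw [this]
  rw [show n + m + 1 - n = m + 1 by omega] at h2
  rw [← add_assoc]
  push_cast at h2 ⊢
  linear_combination -h2

/-- summand -/
def F (n m k : ℕ) : ℚ :=
  2 * (k : ℚ) ^ 3 / ((n : ℚ) ^ 2 * (n + 2 * m)) * b n m ^ 2 * c n k ^ 2 * c m k /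
    (c n 0 ^ 2 * c m 0)

/-- certificate -/
def R (n m k : ℕ) : ℚ :=
  2 / ((n : ℚ) ^ 2 * (n + 2 * m)) * b n m ^ 2 * ((n : ℚ) + k) ^ 2 *
    (-(1 / 2) * ((n : ℚ) * (m + 1) / (n + 2 * (m + 1)) + k * (k - 1))) * c n k ^ 2 / c n 0 ^ 2 *
    (x m k / ((2 * m + 1) * c m 0))

theorem F_R (n m k : ℕ) (hn : 1 ≤ n) : F n (m + 1) k - F n m k = R n m (k + 1) - R n m k := by
  have hc := (c_pos n).ne'
  have hcm := (c_pos m).ne'
  have hn' : (n : ℚ) ≠ 0 := by positivity
  have h0 : c (m + 1) 0 = 2 * (2 * m + 1) * c m 0 / (m + 1) := by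
    have h1 := c_x m 0
    have h2 := c_x' m 0
    push_cast at h1 h2
    have h3 : x m 0 = (2 * m + 1) * c m 0 / (m + 1) := by
      rw [h1]
      have : (m : ℚ) + 1 ≠ 0 := by positivity
      field_simp
      ring
    rw [h2, h3]
    have : (m : ℚ) + 1 ≠ 0 := by positivity
    field_simp
    ring
  have h4 : ((n : ℚ) + 2 * m) ≠ 0 := by positivity
  have h5 : ((n : ℚ) + 2 * (m + 1)) ≠ 0 := by positivity
  have h6 : ((m : ℚ) + 1) ≠ 0 := by positivity
  have h7 : ((m : ℚ) + 1 + k) ≠ 0 := by positivity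
  have h8 : ((n : ℚ) + k + 1) ≠ 0 := by positivity
  have h9 : (2 * (m : ℚ) + 1) ≠ 0 := by positivity
  unfold F R
  rw [c_x' m k, c_x m k, h0, b_succ, c_succ, x_succ]
  push_cast
  have h10 : ((n : ℚ) + (k + 1)) = (n : ℚ) + k + 1 := by ring
  rw [h10]
  generalize x m k = X
  generalize c n k = Y
  generalize c m 0 = Z at *
  generalize c n 0 = W at *
  generalize b n m = V
  field_simp
  ring

theorem sum_F (n m : ℕ) (hn : 1 ≤ n) :
    ∑ i ∈ range n, F n (m + 1) (i + 1) - ∑ i ∈ range n, F n m (i + 1) =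
      n * b n m ^ 2 / ((n + 2 * m) * (n + 2 * (m + 1))) := by
  rw [← Finset.sum_sub_distrib]
  rw [Finset.sum_congr rfl (fun i _ => F_R n m (i + 1) hn)]
  rw [Finset.sum_range_sub (fun i => R n m (i + 1))]
  have hc := (c_pos n).ne'
  have hcm := (c_pos m).ne'
  have hn' : (n : ℚ) ≠ 0 := by positivity
  have h1 : R n m (n + 1) = 0 := by
    have : c n (n + 1) = 0 := by
      unfold c
      rw [Nat.choose_eq_zero_of_lt (by omega)]
      rfl
    unfold R
    rw [this]
    ring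
  have h2 : c n 1 = n * c n 0 / (n + 1) := by
    have := c_succ n 0
    push_cast at this
    rw [this]
    ring
  have h3 : x m 1 = (2 * m + 1) * c m 0 / (m + 1) := by
    have h4 := c_x m 0
    have h5 := x_succ m 0
    push_cast at h4 h5
    rw [h5, h4]
    have : (m : ℚ) + 1 ≠ 0 := by positivity
    field_simp
    ring
  rw [h1]
  have h4 : ((n : ℚ) + 2 * m) ≠ 0 := by positivity
  have h5 : ((n : ℚ) + 2 * (m + 1)) ≠ 0 := by positivity
  have h6 : ((m : ℚ) + 1) ≠ 0 := by positivity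
  have h8 : ((n : ℚ) + 1) ≠ 0 := by positivity
  have h9 : (2 * (m : ℚ) + 1) ≠ 0 := by positivity
  unfold R
  rw [zero_add, h2, h3]
  push_cast
  field_simp
  ring

/-- `C(n+j, n-1)` -/
theorem choose_pred (n j : ℕ) (hn : 1 ≤ n) :
    (((n + j).choose (n - 1) : ℕ) : ℚ) = n * b n j / (j + 1) := by
  rw [eq_div_iff (by positivity)]
  obtain ⟨p, rfl⟩ : ∃ p, n = p + 1 := ⟨n - 1, by omega⟩
  have := succ_mul (p + 1 + j) p
  unfold b
  rw [Nat.add_sub_cancel]
  push_cast at this ⊢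
  linear_combination -this

theorem first (n m : ℕ) (hn : 1 ≤ n) :
    (m : ℚ) / (n + 2 * m) * b n m ^ 2 - ∑ i ∈ range n, F n m (i + 1) =
      ∑ j ∈ range m, b n j * (((n + j).choose (n - 1) : ℕ) : ℚ) := by
  induction m with
  | zero =>
    have h1 : ∀ i ∈ range n, F n 0 (i + 1) = 0 := by
      intro i _
      have : c 0 (i + 1) = 0 := by
        unfold c
        rw [Nat.choose_eq_zero_of_lt (by omega)]
        rfl
      unfold F
      rw [this]
      ring
    rw [Finset.sum_eq_zero h1]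
    simp
  | succ m ih =>
    rw [Finset.sum_range_succ, ← ih]
    have h2 := sum_F n m hn
    rw [choose_pred n m hn]
    have h3 : ∑ i ∈ range n, F n (m + 1) (i + 1) =
      ∑ i ∈ range n, F n m (i + 1) + n * b n m ^ 2 / ((n + 2 * m) * (n + 2 * (m + 1))) := by
      linear_combination h2
    rw [h3, b_succ]
    have hn' : (n : ℚ) ≠ 0 := by positivity
    have h4 : ((n : ℚ) + 2 * m) ≠ 0 := by positivity
    have h5 : ((n : ℚ) + 2 * (m + 1)) ≠ 0 := by positivity
    have h6 : ((m : ℚ) + 1) ≠ 0 := by positivity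
    push_cast
    field_simp
    ring

theorem b_symm (n m : ℕ) : b n m = b m n := by
  unfold b
  rw [add_comm m n, Nat.choose_symm_add]

theorem b_succ' (m j : ℕ) : b (m + 1) j = ((m : ℚ) + j + 1) * b m j / ((m : ℚ) + 1) := by
  rw [b_symm, b_succ, b_symm j m]
  ring

theorem b_self (n : ℕ) : b n n = c n 0 := by
  unfold b c
  rw [add_zero, two_mul]

theorem key (n m : ℕ) (N : ℕ) :
    ((m : ℚ) + 1) * b n (m + 1) * ∑ j ∈ range N, b (m + 1) j * (n * b n j / (j + 1)) -
      (m : ℚ) * b n m * ∑ j ∈ range N, b m j * (n * b n j / (j + 1)) =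
      b n m * b m N * (n * b n N) * N / (m + 1) := by
  induction N with
  | zero => simp
  | succ N ih =>
    rw [Finset.sum_range_succ, Finset.sum_range_succ, mul_add, mul_add]
    have h1 : b (m + 1) N = ((m : ℚ) + N + 1) * b m N / ((m : ℚ) + 1) := b_succ' m N
    have h6 : ((m : ℚ) + 1) ≠ 0 := by positivity
    have h7 : ((N : ℚ) + 1) ≠ 0 := by positivity
    have h8 : ((m : ℚ) + 1) * b n (m + 1) * (b (m + 1) N * (n * b n N / (N + 1))) -
      (m : ℚ) * b n m * (b m N * (n * b n N / (N + 1))) +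
      b n m * b m N * (n * b n N) * N / (m + 1) =
      b n m * b m (N + 1) * (n * b n (N + 1)) * ((N + 1 : ℕ) : ℚ) / (m + 1) := by
      rw [h1, b_succ n m, b_succ m N, b_succ n N]
      push_cast
      field_simp
      ring
    linear_combination ih + h8

/-- second telescoping -/
theorem second (n m : ℕ) (hn : 1 ≤ n) :
    (m : ℚ) * b n m * ∑ j ∈ range n, b m j * (((n + j).choose (n - 1) : ℕ) : ℚ) =
      n * c n 0 * ∑ j ∈ range m, b n j * (((n + j).choose (n - 1) : ℕ) : ℚ) := by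
  simp only [choose_pred n _ hn]
  induction m with
  | zero => simp
  | succ m ih =>
    rw [Finset.sum_range_succ, mul_add, ← ih]
    have h1 := key n m n
    rw [b_symm m n, b_self] at h1
    have h6 : ((m : ℚ) + 1) ≠ 0 := by positivity
    push_cast
    have h9 : n * c n 0 * (b n m * (n * b n m / (m + 1))) =
      b n m * b n m * (n * c n 0) * n / (m + 1) := by
      ring
    rw [h9, ← h1]
    ring

theorem main (n m : ℕ) (hn : 1 ≤ n) (hm : 1 ≤ m) :
    ∑ k ∈ Icc 1 (min n m), ((k : ℚ) / n * (((2 * n).choose (n - k) : ℕ) : ℚ)) ^ 2 *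
        ((k : ℚ) / m * (((2 * m).choose (m - k) : ℕ) : ℚ)) =
      1 / 2 * (((2 * n).choose n : ℕ) : ℚ) ^ 2 * (((2 * m).choose m : ℕ) : ℚ) *
        (1 - ((n : ℚ) + 2 * m) / ((min n m : ℕ) : ℚ) * (((n + m).choose n : ℕ) : ℚ)⁻¹ *
          (((n + min n m).choose n : ℕ) : ℚ)⁻¹ *
          ∑ j ∈ range (min n m), (((max n m + j).choose (max n m) : ℕ) : ℚ) *
            (((n + j).choose (n - 1) : ℕ) : ℚ)) := by
  have hn' : (n : ℚ) ≠ 0 := by positivity
  have hm' : (m : ℚ) ≠ 0 := by positivity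
  have hcn := (c_pos n).ne'
  have hcm := (c_pos m).ne'
  have hb := (b_pos n m).ne'
  have h4 : ((n : ℚ) + 2 * m) ≠ 0 := by positivity
  -- left side
  have hF : ∀ k : ℕ, ((k : ℚ) / n * c n k) ^ 2 * ((k : ℚ) / m * c m k) =
      (n + 2 * m) * (c n 0 ^ 2 * c m 0) / (2 * m * b n m ^ 2) * F n m k := by
    intro k
    unfold F
    field_simp
  have hL : ∑ k ∈ Icc 1 (min n m), ((k : ℚ) / n * (((2 * n).choose (n - k) : ℕ) : ℚ)) ^ 2 *
        ((k : ℚ) / m * (((2 * m).choose (m - k) : ℕ) : ℚ)) =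
      (n + 2 * m) * (c n 0 ^ 2 * c m 0) / (2 * m * b n m ^ 2) * ∑ i ∈ range n, F n m (i + 1) := by
    have h1 : ∑ k ∈ Icc 1 (min n m), ((k : ℚ) / n * (((2 * n).choose (n - k) : ℕ) : ℚ)) ^ 2 *
        ((k : ℚ) / m * (((2 * m).choose (m - k) : ℕ) : ℚ)) =
        ∑ k ∈ Icc 1 (min n m), ((k : ℚ) / n * c n k) ^ 2 * ((k : ℚ) / m * c m k) := by
      refine Finset.sum_congr rfl fun k hk => ?_
      rw [Finset.mem_Icc] at hk
      have h2 : (2 * n).choose (n - k) = (2 * n).choose (n + k) :=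
        Nat.choose_symm_of_eq_add (by omega)
      have h3 : (2 * m).choose (m - k) = (2 * m).choose (m + k) :=
        Nat.choose_symm_of_eq_add (by omega)
      rw [h2, h3]
      rfl
    have h2 : ∑ k ∈ Icc 1 (min n m), ((k : ℚ) / n * c n k) ^ 2 * ((k : ℚ) / m * c m k) =
        ∑ k ∈ Ico 1 (n + 1), ((k : ℚ) / n * c n k) ^ 2 * ((k : ℚ) / m * c m k) := by
      apply Finset.sum_subset
      · intro k hk
        rw [Finset.mem_Icc] at hk
        rw [Finset.mem_Ico]
        omega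
      · intro k hk hk2
        rw [Finset.mem_Ico] at hk
        rw [Finset.mem_Icc] at hk2
        have : c m k = 0 := by
          unfold c
          rw [Nat.choose_eq_zero_of_lt (by omega)]
          rfl
        rw [this]
        ring
    rw [h1, h2, Finset.sum_Ico_eq_sum_range, Nat.add_sub_cancel, Finset.mul_sum]
    refine Finset.sum_congr rfl fun i _ => ?_
    rw [hF, add_comm 1 i]
  rw [hL]
  have h5 := first n m hn
  have h6 := second n m hn
  have e1 : (((2 * n).choose n : ℕ) : ℚ) = c n 0 := rfl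
  have e2 : (((2 * m).choose m : ℕ) : ℚ) = c m 0 := rfl
  have e3 : (((n + m).choose n : ℕ) : ℚ) = b n m := rfl
  rw [e1, e2, e3]
  have hS : ∑ i ∈ range n, F n m (i + 1) = (m : ℚ) / (n + 2 * m) * b n m ^ 2 -
      ∑ j ∈ range m, b n j * (((n + j).choose (n - 1) : ℕ) : ℚ) := by
    linear_combination -h5
  rw [hS]
  rcases le_total n m with hnm | hnm
  · rw [min_eq_left hnm, max_eq_right hnm]
    have e4 : (((n + n).choose n : ℕ) : ℚ) = c n 0 := b_self n
    have e5 : ∀ j, (((m + j).choose m : ℕ) : ℚ) = b m j := fun j => rfl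
    rw [e4]
    simp only [e5]
    have e6 : ∑ j ∈ range m, b n j * (((n + j).choose (n - 1) : ℕ) : ℚ) =
        (m : ℚ) * b n m * (∑ j ∈ range n, b m j * (((n + j).choose (n - 1) : ℕ) : ℚ)) /
          (n * c n 0) := by
      rw [eq_div_iff (by positivity), h6]
      ring
    rw [e6]
    generalize ∑ j ∈ range n, b m j * (((n + j).choose (n - 1) : ℕ) : ℚ) = T
    field_simp
  · rw [min_eq_right hnm, max_eq_left hnm]
    have e5 : ∀ j, (((n + j).choose n : ℕ) : ℚ) = b n j := fun j => rfl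
    simp only [e5]
    generalize ∑ j ∈ range m, b n j * (((n + j).choose (n - 1) : ℕ) : ℚ) = T
    field_simp

end Pool.Agent.N926.Shap
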